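import Pool.Agent.LeoK.CountStmts

/-!
Squad LEOK, module KCN: the interface of the counting part from its final inequality.
-/

set_option autoImplicit false

open NumberField IsDedekindDomain Module MeasureTheory Filter Topology

namespace Pool.Agent.LeoK.H59

variable {k : Type} [Field k] [NumberField k]

/-- Squarefree principal ideals from the local conditions. -/
lemma sqf_of_loc (m : 𝓞 k) (hm : m ≠ 0)
    (h : ∀ p : HeightOneSpectrum (𝓞 k), m ∉ p.asIdeal ^ 2) : Squarefree (Ideal.span {m}) := by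
  intro J hJ
  by_contra hu
  have hJ0 : J ≠ ⊥ := by
    rintro rfl
    apply hm
    have h1 : (⊥ : Ideal (𝓞 k)) ∣ Ideal.span {m} := (Dvd.intro _ rfl).trans hJ
    rw [Ideal.dvd_iff_le, le_bot_iff, Ideal.span_singleton_eq_bot] at h1
    exact h1
  rw [Ideal.isUnit_iff] at hu
  obtain ⟨P, hP, hle⟩ := Ideal.exists_le_maximal J hu
  have hP0 : P ≠ ⊥ := by
    rintro rfl
    exact hJ0 (le_bot_iff.1 hle)
  apply h ⟨P, hP.isPrime, hP0⟩
  have h1 : P * P ∣ Ideal.span {m} := by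
    have h2 : P ∣ J := Ideal.dvd_iff_le.2 hle
    exact (mul_dvd_mul h2 h2).trans hJ
  rw [← pow_two, Ideal.dvd_iff_le, Ideal.span_singleton_le_iff_mem] at h1
  exact h1

/-- Squarefree ideals whose product is a square are equal. -/
lemma eq_of_sq {A B C : Ideal (𝓞 k)} (hA : Squarefree A) (hB : Squarefree B)
    (h : A * B = C ^ 2) : A = B := by
  have hA0 : A ≠ 0 := hA.ne_zero
  have h1 : A ∣ C := (hA.dvd_pow_iff_dvd two_ne_zero).1 (h ▸ Dvd.intro _ rfl)
  obtain ⟨D, rfl⟩ := h1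
  have h2 : B = A * (D * D) := by
    apply mul_left_cancel₀ hA0
    rw [h]
    ring
  have h3 : IsUnit D := hB D ⟨A, by rw [h2]; ring⟩
  rw [Ideal.isUnit_iff] at h3
  rw [h2, h3]
  simp

/-- KCN. -/
theorem kcn (hcnt : CntStmt) (hadm : AdmStmt) (hfra : FraStmt) (hnor : NorStmt) : KcntStmt := by
  intro k _ _ hk
  obtain ⟨Φ⟩ := hfra k hk
  obtain ⟨hfin, ⟨c, hc, hlow⟩, hbad⟩ := hcnt k hk Φ
  obtain ⟨hcard, -, hnor⟩ := hnor k hk
  refine ⟨c / 4, Φ.cF, by positivity, ?_⟩
  filter_upwards [hlow, hbad (1 / 4) (by norm_num), eventually_gt_atTop 0] with Z h1 h2 hZ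
  set bad : Set (𝓞 k) := {m | m ∈ Mset Φ Z ∧ ((∃ x : k, x ^ 2 = 3 * (m : k)) ∨
        ∃ a b c d : 𝓞 k, Irr a b c d ∧ (∀ φ : k →+* ℝ, 0 < φ (fP a b c : 𝓞 k)) ∧
          fM a b c d = m)} with hbaddef
  have hsub : bad ⊆ Mset Φ Z := fun m hm => hm.1
  have hf := hfin Z
  have hfd : (Mset Φ Z \ bad).Finite := hf.subset Set.sdiff_subset
  have hmem : ∀ m : 𝓞 k, m ∈ hfd.toFinset → m ∈ Mset Φ Z ∧ m ∉ bad := by
    intro m hm
    rw [Set.Finite.mem_toFinset] at hm
    exact hm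
  have hne : ∀ m : 𝓞 k, m ∈ Mset Φ Z → m ≠ 0 := by
    rintro m ⟨hm, -⟩ rfl
    have := Φ.pos _ hm
    obtain ⟨s⟩ : Nonempty (k →+* ℝ) := by
      rw [← Fintype.card_pos_iff]
      show 0 < Fintype.card (Sg k)
      rw [hcard]
      exact finrank_pos
    have := this s
    simp [lam] at this
  refine ⟨hfd.toFinset, ?_, ?_, ?_⟩
  · rw [← Set.ncard_eq_toFinset_card _ hfd]
    have h3 : ((Mset Φ Z \ bad).ncard : ℝ) = (Mset Φ Z).ncard - bad.ncard := by
      have := Set.ncard_sdiff_add_ncard_of_subset hsub hf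
      have h4 : (((Mset Φ Z \ bad).ncard + bad.ncard : ℕ) : ℝ) = (Mset Φ Z).ncard := by
        rw [this]
      push_cast at h4
      linarith
    rw [h3]
    linarith
  · intro m hm
    obtain ⟨hm, hmb⟩ := hmem m hm
    have hm0 := hne m hm
    obtain ⟨hF, hZm, htwo, hloc⟩ := hm
    refine ⟨⟨fun φ => Φ.pos _ hF φ, sqf_of_loc m hm0 fun p => (hloc p).sqf, htwo, ?_, ?_⟩, ?_,
      ?_, ?_⟩
    · exact hadm k m fun v hv => (hloc v).three hv
    · intro x hx
      exact hmb ⟨⟨hF, hZm, htwo, hloc⟩, Or.inl ⟨x, hx⟩⟩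
    · have h3 := (hnor m hm0).2
      rw [Ideal.absNorm_span_singleton] at h3
      rw [← h3]
      refine le_trans (le_of_eq ?_) hZm
      exact Finset.prod_congr rfl fun s _ => abs_of_pos (Φ.pos _ hF s)
    · intro φ ψ
      exact Φ.cmp _ hF φ ψ
    · intro h3
      exact hmb ⟨⟨hF, hZm, htwo, hloc⟩, Or.inr h3⟩
  · intro m hm m' hm' hsq
    obtain ⟨hm, -⟩ := hmem m hm
    obtain ⟨hm', -⟩ := hmem m' hm'
    have hm0 := hne m hm
    have hm0' := hne m' hm'
    obtain ⟨hF, -, -, hloc⟩ := hm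
    obtain ⟨hF', -, -, hloc'⟩ := hm'
    obtain ⟨x, hx⟩ := hsq
    have hxint : IsIntegral ℤ x := by
      apply IsIntegral.of_pow (n := 2) two_pos
      rw [pow_two, ← hx]
      exact (m * m').isIntegral_coe
    obtain ⟨x', hx'⟩ : ∃ x' : 𝓞 k, (x' : k) = x := ⟨⟨x, hxint⟩, rfl⟩
    have h4 : m * m' = x' ^ 2 := by
      apply RingOfIntegers.coe_injective
      rw [map_mul, map_pow]
      show (m : k) * m' = (x' : k) ^ 2
      rw [hx, hx', pow_two]
    have h5 : Ideal.span {m} = Ideal.span {m'} := by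
      apply eq_of_sq (sqf_of_loc m hm0 fun p => (hloc p).sqf)
        (sqf_of_loc m' hm0' fun p => (hloc' p).sqf) (C := Ideal.span {x'})
      rw [Ideal.span_singleton_mul_span_singleton, h4, Ideal.span_singleton_pow]
    rw [Ideal.span_singleton_eq_span_singleton] at h5
    obtain ⟨u, hu⟩ := h5
    have hmk : (m : k) ≠ 0 := by
      intro h; exact hm0 (by exact_mod_cast h)
    have h6 : (x / m) ^ 2 = ((u : 𝓞 k) : k) := by
      have h7 : (m' : k) = m * ((u : 𝓞 k) : k) := by rw [← hu]; push_cast; rfl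
      rw [div_pow, pow_two x, ← hx, h7]
      field_simp
    have h7 : IsIntegral ℤ (x / m) := by
      apply IsIntegral.of_pow (n := 2) two_pos
      rw [h6]
      exact RingOfIntegers.isIntegral_coe _
    obtain ⟨e, he⟩ : ∃ e : 𝓞 k, (e : k) = x / m := ⟨⟨_, h7⟩, rfl⟩
    have h8 : e ^ 2 = u := by
      apply RingOfIntegers.coe_injective
      rw [map_pow]
      show (e : k) ^ 2 = _
      rw [he, h6]
    have h9 : IsUnit e := by
      have : IsUnit (e ^ 2) := by rw [h8]; exact u.isUnit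
      exact (isUnit_pow_iff two_ne_zero).1 this
    obtain ⟨η, rfl⟩ := h9
    have h10 : lam (m' : k) = lam ((η : 𝓞 k) : k) ^ 2 * lam (m : k) := by
      funext s
      simp only [lam, Pi.mul_apply, Pi.pow_apply]
      rw [← map_pow, ← map_mul]
      congr 1
      rw [← hu, ← h8]
      push_cast
      ring
    rw [h10] at hF'
    rcases Φ.uni _ hF η hF' with h | h
    · rw [h] at h8
      rw [← hu, ← h8]
      simp
    · rw [h] at h8
      rw [← hu, ← h8]
      simp

end Pool.Agent.LeoK.H59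

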