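import Pool.Agent.LeoK.StrStmts
import Pool.Agent.Helper85_Leo.Units
import Pool.Agent.Helper93_Leo3.Leo

/-!
Squad leok, module PHI: the primes above 3 come from embeddings into the algebraic closure of `ℚ_3`.
-/

set_option autoImplicit false

open NumberField IsDedekindDomain WithZero Module
open Pool.Agent.Helper85_Leo Pool.Agent.Leo3 Pool.Agent.Leo3.H93

namespace Pool.Agent.LeoK.H59

variable {L : Type} [Field L] [NumberField L]

theorem norm_three_lt : ‖(3 : Om)‖ < 1 := by
  have h := norm_three_pow 1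
  rw [pow_one, pow_one] at h
  rw [h]
  norm_num

/-- the prime of an embedding. -/
noncomputable def Pφ (φ : L →+* Om) : Ideal (𝓞 L) where
  carrier := {x | ‖φ (x : L)‖ < 1}
  add_mem' := by
    intro a b ha hb
    simp only [Set.mem_ofPred_eq] at *
    rw [show ((a + b : 𝓞 L) : L) = (a : L) + b from rfl, map_add]
    exact lt_of_le_of_lt (IsUltrametricDist.norm_add_le_max _ _) (max_lt ha hb)
  zero_mem' := by
    simp
  smul_mem' := by
    intro c x hx
    simp only [Set.mem_ofPred_eq, smul_eq_mul] at *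
    rw [show ((c * x : 𝓞 L) : L) = (c : L) * x from rfl, map_mul, norm_mul]
    have h1 := norm_embedding_le_one φ c
    calc ‖φ (c : L)‖ * ‖φ (x : L)‖ ≤ 1 * ‖φ (x : L)‖ := by gcongr
      _ < 1 := by rwa [one_mul]

theorem mem_Pφ (φ : L →+* Om) (x : 𝓞 L) : x ∈ Pφ φ ↔ ‖φ (x : L)‖ < 1 := Iff.rfl

theorem prime_Pφ (φ : L →+* Om) : (Pφ φ).IsPrime := by
  refine Ideal.isPrime_iff.mpr ⟨?_, ?_⟩
  · intro h
    rw [Ideal.eq_top_iff_one, mem_Pφ] at h
    simp at h
  · intro x y hxy
    rw [mem_Pφ, show ((x * y : 𝓞 L) : L) = (x : L) * y from rfl, map_mul, norm_mul] at hxy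
    rw [mem_Pφ, mem_Pφ]
    by_contra hno
    push Not at hno
    have hx := le_antisymm (norm_embedding_le_one φ x) hno.1
    have hy := le_antisymm (norm_embedding_le_one φ y) hno.2
    rw [hx, hy] at hxy
    norm_num at hxy

theorem phi : PhiStmt := by
  classical
  intro L _ _ P hP h3
  have hfin : Finite (L →+* Om) := by
    have : Finite (L →ₐ[ℚ] Om) := inferInstance
    exact Finite.of_equiv _ (RingHom.equivRatAlgHom L Om).symm
  have hft : Fintype (L →+* Om) := Fintype.ofFinite _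
  obtain ⟨φ, hle⟩ : ∃ φ : L →+* Om, P ≤ Pφ φ := by
    by_contra hno
    push Not at hno
    obtain ⟨φ₀⟩ : Nonempty (L →+* Om) := by
      have : Algebra.IsAlgebraic ℚ L := inferInstance
      exact ⟨(IsAlgClosed.lift (R := ℚ) (S := L) (M := Om)).toRingHom⟩
    have hsub : ¬ ((P : Set (𝓞 L)) ⊆ ⋃ i ∈ (↑(Finset.univ : Finset (L →+* Om)) : Set (L →+* Om)),
        (Pφ i : Set (𝓞 L))) := by
      rw [Ideal.subset_union_prime φ₀ φ₀ (fun i _ _ _ => prime_Pφ i)]
      rintro ⟨i, -, hi⟩
      exact hno i hi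
    rw [Set.not_subset] at hsub
    obtain ⟨z, hz, hzn⟩ := hsub
    have hz1 : ∀ φ : L →+* Om, ‖φ (z : L)‖ = 1 := by
      intro φ
      refine le_antisymm (norm_embedding_le_one φ z) ?_
      by_contra hlt
      push Not at hlt
      apply hzn
      simp only [Set.mem_iUnion]
      exact ⟨φ, by simp, hlt⟩
    -- the norm
    have hprod : algebraMap ℚ Om (Algebra.norm ℚ (z : L)) = ∏ σ : L →ₐ[ℚ] Om, σ (z : L) :=
      Algebra.norm_eq_prod_embeddings ℚ Om (z : L)
    have hn1 : ‖algebraMap ℚ Om (Algebra.norm ℚ (z : L))‖ = 1 := by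
      rw [hprod, norm_prod]
      exact Finset.prod_eq_one fun σ _ => hz1 (σ : L →+* Om)
    have hmem : ((Ideal.absNorm (Ideal.span {z}) : ℕ) : 𝓞 L) ∈ P := by
      have h := Ideal.absNorm_mem (Ideal.span {z})
      exact (Ideal.span_singleton_le_iff_mem P).mpr hz h
    have h3N : 3 ∣ Ideal.absNorm (Ideal.span {z}) := by
      by_contra hnd
      have hcop : Nat.Coprime 3 (Ideal.absNorm (Ideal.span {z})) :=
        (Nat.Prime.coprime_iff_not_dvd Nat.prime_three).mpr hnd
      have hz' : IsCoprime (3 : ℤ) (Ideal.absNorm (Ideal.span {z}) : ℤ) := by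
        exact_mod_cast Nat.isCoprime_iff_coprime.mpr hcop
      obtain ⟨a, b, hab⟩ := hz'
      have h1 : (1 : 𝓞 L) ∈ P := by
        have h2 : (1 : 𝓞 L) = (a : 𝓞 L) * 3 +
            (b : 𝓞 L) * ((Ideal.absNorm (Ideal.span {z}) : ℕ) : 𝓞 L) := by
          have h4 := congrArg (fun t : ℤ => (t : 𝓞 L)) hab
          push_cast at h4
          exact h4.symm
        rw [h2]
        exact P.add_mem (P.mul_mem_left _ h3) (P.mul_mem_left _ hmem)
      exact hP.ne_top ((Ideal.eq_top_iff_one P).mpr h1)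
    have hnat : Ideal.absNorm (Ideal.span {z}) = (Algebra.norm ℤ z).natAbs :=
      Ideal.absNorm_span_singleton z
    obtain ⟨c, hc⟩ : (3 : ℤ) ∣ Algebra.norm ℤ z := by
      rw [hnat] at h3N
      exact Int.natCast_dvd.mpr h3N
    have h5 : algebraMap ℚ Om (Algebra.norm ℚ (z : L)) = (3 : Om) * (c : Om) := by
      rw [← Algebra.coe_norm_int, hc]
      push_cast
      simp
    rw [h5, norm_mul] at hn1
    have h6 : ‖(c : Om)‖ ≤ 1 := by
      have h8 := norm_embedding_le_one φ₀ (c : 𝓞 L)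
      rw [show (((c : 𝓞 L)) : L) = (c : L) from map_intCast (algebraMap (𝓞 L) L) c,
        map_intCast] at h8
      exact h8
    have h7 : ‖(3 : Om)‖ * ‖(c : Om)‖ < 1 :=
      lt_of_le_of_lt (mul_le_of_le_one_right (norm_nonneg _) h6) norm_three_lt
    exact absurd hn1 h7.ne
  refine ⟨φ, fun x => ?_⟩
  have hPne : P ≠ ⊥ := by
    rintro rfl
    rw [Ideal.mem_bot] at h3
    norm_num at h3
  have hmax : P.IsMaximal := hP.isMaximal hPne
  have heq : P = Pφ φ := hmax.eq_of_le (prime_Pφ φ).ne_top hle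
  rw [heq]
  rfl

end Pool.Agent.LeoK.H59
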