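import Pool.Agent.Helper60_Leo3.Tools2
import Pool.Agent.Helper76_Leo3.Nmf
import Pool.Agent.LeoK.CorStmts

/-!
Squad LEOK, module QQ: the rational field is a base field.
-/

set_option autoImplicit false

open NumberField IsDedekindDomain WithZero Module
open Pool.Agent.Helper85_Leo Pool.Agent.Leo3 Pool.Agent.Leo3.H60

namespace Pool.Agent.LeoK.H59

lemma norm_natq (l : ℕ) : Algebra.norm ℤ (l : 𝓞 ℚ) = (l : ℤ) := by
  have h1 : (l : 𝓞 ℚ) = algebraMap ℤ (𝓞 ℚ) (l : ℤ) := by simp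
  rw [h1, Algebra.norm_algebraMap, RingOfIntegers.rank, finrank_self, pow_one]

lemma prime_aboveq {l : ℕ} (hl : l.Prime) :
    ∃ q : HeightOneSpectrum (𝓞 ℚ), (l : 𝓞 ℚ) ∈ q.asIdeal := by
  have hnu : ¬ IsUnit (l : 𝓞 ℚ) := by
    intro h
    have h2 := h.map (Algebra.norm ℤ)
    rw [norm_natq, Int.isUnit_iff] at h2
    have h3 : (2 : ℤ) ≤ l := by exact_mod_cast hl.two_le
    rcases h2 with h | h <;> omega
  obtain ⟨P, hP, hle⟩ := Ideal.exists_le_maximal (Ideal.span {(l : 𝓞 ℚ)})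
    (by rwa [Ne, Ideal.span_singleton_eq_top])
  have hmem : (l : 𝓞 ℚ) ∈ P := hle (Ideal.mem_span_singleton_self _)
  refine ⟨⟨P, hP.isPrime, ?_⟩, hmem⟩
  intro hbot
  rw [hbot, Ideal.mem_bot] at hmem
  exact hl.ne_zero (by exact_mod_cast hmem)

lemma val_ratq {l : ℕ} (hl : l.Prime) (q : HeightOneSpectrum (𝓞 ℚ))
    (hq : (l : 𝓞 ℚ) ∈ q.asIdeal) (x : ℚ) (hx : x ≠ 0) :
      q.valuation ℚ x = exp (-(padicValRat l x)) := by
  haveI : Fact l.Prime := ⟨hl⟩
  have hl0 : (l : 𝓞 ℚ) ≠ 0 := by exact_mod_cast hl.ne_zero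
  obtain ⟨k, hk⟩ := exp_of_le_one (q.intValuation_le_one (l : 𝓞 ℚ)) (q.intValuation_ne_zero _ hl0)
  have hk1 : 1 ≤ k := by
    by_contra h
    have hk0 : k = 0 := by omega
    rw [hk0] at hk
    simp only [Nat.cast_zero, neg_zero, exp_zero] at hk
    have := (q.intValuation_lt_one_iff_mem (l : 𝓞 ℚ)).2 hq
    rw [hk] at this
    exact lt_irrefl _ this
  have hk2 : k ≤ 1 := by
    by_contra h
    have h3 : q.intValuation (l : 𝓞 ℚ) ≤ exp (-((2 : ℕ) : ℤ)) := by
      rw [hk, exp_le_exp]; push_cast; omega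
    rw [HeightOneSpectrum.intValuation_le_pow_iff_dvd] at h3
    have h4 := map_dvd Ideal.absNorm h3
    rw [map_pow, Ideal.absNorm_span_singleton, norm_natq, Int.natAbs_natCast] at h4
    have h5 : Ideal.absNorm q.asIdeal ∣ l := (dvd_pow_self _ two_ne_zero).trans h4
    have h6 : Ideal.absNorm q.asIdeal ≠ 1 := by
      rw [Ne, Ideal.absNorm_eq_one_iff]
      exact q.isPrime.ne_top
    have h7 : Ideal.absNorm q.asIdeal = l := ((Nat.dvd_prime hl).1 h5).resolve_left h6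
    rw [h7] at h4
    have h8 := Nat.le_of_dvd hl.pos h4
    have h9 := hl.two_le
    nlinarith
  have hk' : k = 1 := le_antisymm hk2 hk1
  subst hk'
  have hvl : q.valuation ℚ (l : ℚ) = exp (-(1 : ℤ)) := by
    have := HeightOneSpectrum.valuation_of_algebraMap (K := ℚ) q (l : 𝓞 ℚ)
    rw [hk] at this
    simpa using this
  have hnat : ∀ n : ℕ, n ≠ 0 → q.valuation ℚ (n : ℚ) = exp (-(padicValNat l n : ℤ)) := by
    intro n hn
    obtain ⟨v, n', hn', rfl⟩ := Nat.exists_eq_pow_mul_and_not_dvd hn l hl.ne_one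
    have hn0 : n' ≠ 0 := by rintro rfl; simp at hn'
    have h1 : padicValNat l (l ^ v * n') = v := by
      rw [padicValNat.mul (pow_ne_zero _ hl.ne_zero) hn0, padicValNat.prime_pow,
        padicValNat.eq_zero_of_not_dvd hn', add_zero]
    have h2 : q.valuation ℚ (n' : ℚ) = 1 := by
      have := (HeightOneSpectrum.intValuation_eq_one_iff (v := q) (x := (n' : 𝓞 ℚ))).2
        (natCast_notMem hl hn' q hq)
      have h3 := HeightOneSpectrum.valuation_of_algebraMap (K := ℚ) q (n' : 𝓞 ℚ)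
      rw [this] at h3
      simpa using h3
    rw [h1, Nat.cast_mul, Nat.cast_pow, map_mul, map_pow, h2, hvl, mul_one, ← exp_nsmul]
    congr 1
    simp only [nsmul_eq_mul]
    ring
  have hnum : x.num ≠ 0 := Rat.num_ne_zero.2 hx
  have h1 : x = (x.num : ℚ) / (x.den : ℚ) := (Rat.num_div_den x).symm
  have h2 : q.valuation ℚ (x.num : ℚ) = q.valuation ℚ (x.num.natAbs : ℚ) := by
    rcases Int.natAbs_eq x.num with h | h
    · conv_lhs => rw [h]
      rw [Int.cast_natCast]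
    · conv_lhs => rw [h]
      rw [Int.cast_neg, Int.cast_natCast, Valuation.map_neg]
  have h3 : q.valuation ℚ x = q.valuation ℚ (x.num : ℚ) / q.valuation ℚ (x.den : ℚ) := by
    conv_lhs => rw [h1]
    exact map_div₀ _ _ _
  rw [h3, h2, hnat _ (by simpa using hnum), hnat _ x.den_ne_zero, padicValRat_def,
    ← exp_sub]
  congr 1
  unfold padicValInt
  ring

lemma fixq (φ : ℚ →+* Om) (ρ : Om ≃ₐ[ℚ_[3]] Om) : FixF φ ρ := by
  intro x
  rw [eq_ratCast φ x]
  exact map_ratCast ρ x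

/-- local elements at the place 3 of the rational field. -/
lemma inlocq (φ : ℚ →+* Om) (t : Om) (ht : InLoc φ t) : ∃ p : ℚ_[3], t = algebraMap ℚ_[3] Om p := by
  have hR : (0 : Om) ^ 2 = algebraMap ℚ_[3] Om 0 := by simp
  obtain ⟨p, q, h⟩ := Pool.Agent.Leo3.H76.quad_elt hR (t := t) (fun ρ _ => ht ρ (fixq φ ρ))
  exact ⟨p, by rw [h]; simp⟩

lemma nomuq : NoMu ℚ := by
  intro φ t ht h3
  obtain ⟨p, rfl⟩ := inlocq φ t ht
  have h1 : p ^ 3 = 1 := by
    apply (algebraMap ℚ_[3] Om).injective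
    rw [map_pow, h3, map_one]
  have h2 : p = 1 := by
    by_contra hp
    have h3 : (p - 1) * (p ^ 2 + p + 1) = 0 := by linear_combination h1
    have h4 : p ^ 2 + p + 1 = 0 := (mul_eq_zero.1 h3).resolve_left (sub_ne_zero.2 hp)
    exact Pool.Agent.Leo3.H76.nsqm3 (2 * p + 1) (by linear_combination 4 * h4)
  rw [h2, map_one]

lemma w3q : W3 ℚ := by
  intro z hz hval hloc
  apply rat_cube
  intro p hp
  haveI : Fact p.Prime := ⟨hp⟩
  by_cases hp3 : p = 3
  · subst hp3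
    obtain ⟨t, ht, h3⟩ := hloc (algebraMap ℚ Om)
    obtain ⟨y, rfl⟩ := inlocq _ t ht
    have hy : y ^ 3 = (z : ℚ_[3]) := by
      apply (algebraMap ℚ_[3] Om).injective
      rw [map_pow, h3, eq_ratCast, map_ratCast]
    have h1 : (z : ℚ_[3]).valuation = padicValRat 3 z := Padic.valuation_ratCast z
    rw [← h1, ← hy, Padic.valuation_pow]
    exact ⟨_, by push_cast; ring⟩
  · obtain ⟨q, hq⟩ := prime_aboveq hp
    have h3 : (3 : 𝓞 ℚ) ∉ q.asIdeal := by
      have hnd : ¬ p ∣ 3 := fun h => hp3 ((Nat.prime_dvd_prime_iff_eq hp Nat.prime_three).1 h)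
      have := natCast_notMem hp hnd q hq
      exact_mod_cast this
    obtain ⟨x, hx⟩ := hval q h3
    rw [val_ratq hp q hq z hz] at hx
    have hx0 : x ≠ 0 := by
      rintro rfl
      exact exp_ne_zero (hx.trans (by simp))
    rw [← exp_log hx0, ← exp_nsmul] at hx
    have h5 := congrArg log hx
    rw [log_exp, log_exp, nsmul_eq_mul] at h5
    exact ⟨-log x, by push_cast at h5; linarith⟩

/-- QQ. -/
theorem qq : QqStmt where
  real := inferInstance
  nomu := nomuq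
  w3 := w3q
  tr := by
    refine ⟨1, ?_⟩
    have h1 : Algebra.trace ℤ (𝓞 ℚ) 1 = 1 := by
      have h2 := Algebra.trace_algebraMap (R := ℤ) (S := 𝓞 ℚ) (1 : ℤ)
      rw [map_one, RingOfIntegers.rank, finrank_self] at h2
      simpa using h2
    rw [h1]
    norm_num

end Pool.Agent.LeoK.H59

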