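import Pool.Agent.LeoK.CountStmts

/-!
Squad LEOK, module INJ: the marks of an irreducible form and of its mirror image give different
forms.
-/

set_option autoImplicit false

open NumberField IsDedekindDomain Module MeasureTheory Filter Topology

namespace Pool.Agent.LeoK.H59

variable {k : Type} [Field k] [NumberField k]

/-- The lattice of the frame consists of the integers. -/
lemma mem_span_B (Φ : Frame k) {x : Sg k → ℝ} (hx : x ∈ Submodule.span ℤ (Set.range Φ.B)) :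
    ∃ t : 𝓞 k, x = lam (t : k) := by
  induction hx using Submodule.span_induction with
  | mem y hy =>
    obtain ⟨i, rfl⟩ := hy
    exact ⟨Φ.om i, Φ.hB i⟩
  | zero => exact ⟨0, by funext s; simp [lam]⟩
  | add y z _ _ h1 h2 =>
    obtain ⟨a, rfl⟩ := h1
    obtain ⟨b, rfl⟩ := h2
    exact ⟨a + b, by funext s; simp [lam]⟩
  | smul n y _ h1 =>
    obtain ⟨a, rfl⟩ := h1
    exact ⟨n • a, by funext s; simp [lam]⟩

/-- Translation into the fundamental domain. -/
lemma exists_shift (Φ : Frame k) (x : Sg k → ℝ) :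
    ∃ t : 𝓞 k, x + lam (t : k) ∈ ZSpan.fundamentalDomain Φ.B := by
  have h1 : -(ZSpan.floor Φ.B x : Sg k → ℝ) ∈ Submodule.span ℤ (Set.range Φ.B) :=
    Submodule.neg_mem _ (ZSpan.floor Φ.B x).2
  obtain ⟨t, ht⟩ := mem_span_B Φ h1
  refine ⟨t, ?_⟩
  rw [← ht, ← sub_eq_add_neg]
  exact ZSpan.fract_mem_fundamentalDomain Φ.B x

lemma act_zero {A : Type} [CommRing A] (v : Q4 A) (x y z w : A) :
    act v x y z w 0 = val v x z := rfl

/-- A mark gives a normalised form. -/
lemma mark_form (act_ : ActStmt) (Φ : Frame k) (T η : ℝ) (v : Q4 (𝓞 k))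
    (hirr : Irr (v 0) (v 1) (v 2) (v 3)) (p : 𝓞 k × 𝓞 k) (hp : p ∈ Mks Φ T η v) :
    ∃ y w : 𝓞 k, p.1 * w - y * p.2 = 1 ∧ act v p.1 y p.2 w ∈ Wset Φ T η (qM v) := by
  obtain ⟨X, Y⟩ := p
  obtain ⟨⟨a, b, hab⟩, hF, hT, hv⟩ := hp
  simp only at hab hF hT hv ⊢
  have hne : val v X Y ≠ 0 := by
    intro h0
    obtain ⟨h1, h2⟩ := hirr X Y h0
    rw [h1, h2] at hab
    simp at hab
  obtain ⟨t, ht⟩ := exists_shift Φ (fun s : Sg k => s ((act v X (-b) Y a 1 : 𝓞 k) : k) /
    s ((act v X (-b) Y a 0 : 𝓞 k) : k))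
  have hdet : X * (a + t * Y) - (-b + t * X) * Y = 1 := by linear_combination hab
  obtain ⟨h1, h2, -, -, -, -⟩ := act_ (𝓞 k) v X (-b + t * X) Y (a + t * Y)
  rw [hdet, one_pow, one_mul] at h1 h2
  refine ⟨-b + t * X, a + t * Y, hdet, h1, hne, ?_, ?_, ?_, ?_⟩
  · have h3 : act v X (-b + t * X) Y (a + t * Y) 1 =
        act v X (-b) Y a 1 + t * act v X (-b) Y a 0 := by
      simp only [act, cub, Matrix.cons_val_one, Matrix.cons_val_zero]
      ring
    have h4 : act v X (-b + t * X) Y (a + t * Y) 0 = act v X (-b) Y a 0 := rfl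
    have h5 : (fun s : Sg k => s ((act v X (-b + t * X) Y (a + t * Y) 1 : 𝓞 k) : k) /
        s ((act v X (-b + t * X) Y (a + t * Y) 0 : 𝓞 k) : k)) =
        (fun s : Sg k => s ((act v X (-b) Y a 1 : 𝓞 k) : k) /
          s ((act v X (-b) Y a 0 : 𝓞 k) : k)) + lam (t : k) := by
      funext s
      have h6 : s ((act v X (-b) Y a 0 : 𝓞 k) : k) ≠ 0 := by
        rw [act_zero]
        intro h
        apply hne
        have := (map_eq_zero s).1 h
        exact_mod_cast this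
      rw [h3, h4]
      simp only [Pi.add_apply, lam]
      rw [show ((act v X (-b) Y a 1 + t * act v X (-b) Y a 0 : 𝓞 k) : k) =
        ((act v X (-b) Y a 1 : 𝓞 k) : k) + (t : k) * ((act v X (-b) Y a 0 : 𝓞 k) : k) by
          push_cast; ring, map_add, map_mul, add_div, mul_div_assoc, div_self h6, mul_one]
    rw [h5]
    exact ht
  · rw [h1, h2]
    exact hF
  · rw [h1, h2]
    exact hT
  · rw [h1]
    exact hv

section maps

variable {A B : Type} [CommRing A] [CommRing B] (φ : A →+* B)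

lemma map_cub (a b c d x y : A) :
    φ (cub a b c d x y) = cub (φ a) (φ b) (φ c) (φ d) (φ x) (φ y) := by
  simp only [cub, map_add, map_mul, map_pow, map_ofNat]

lemma map_fM (a b c d : A) : φ (fM a b c d) = fM (φ a) (φ b) (φ c) (φ d) := by
  simp only [fM, fP, fQ, fR, map_sub, map_mul, map_pow, map_ofNat]

lemma map_act (v : Q4 A) (x y z w : A) (i : Fin 4) :
    φ (act v x y z w i) = act (fun j => φ (v j)) (φ x) (φ y) (φ z) (φ w) i := by
  fin_cases i
  · exact map_cub φ _ _ _ _ _ _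
  · simp [act, map_ofNat]
  · simp [act, map_ofNat]
  · exact map_cub φ _ _ _ _ _ _

lemma cub_act (v : Q4 A) (x y z w X Y : A) :
    cub (v 0) (v 1) (v 2) (v 3) (x * X + y * Y) (z * X + w * Y) =
      cub (act v x y z w 0) (act v x y z w 1) (act v x y z w 2) (act v x y z w 3) X Y := by
  have e0 : act v x y z w 0 = cub (v 0) (v 1) (v 2) (v 3) x z := rfl
  have e1 : act v x y z w 1 = v 0 * x ^ 2 * y + v 1 * (x ^ 2 * w + 2 * x * y * z) +
    v 2 * (2 * x * z * w + y * z ^ 2) + v 3 * z ^ 2 * w := rfl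
  have e2 : act v x y z w 2 = v 0 * x * y ^ 2 + v 1 * (2 * x * y * w + y ^ 2 * z) +
    v 2 * (x * w ^ 2 + 2 * y * z * w) + v 3 * z * w ^ 2 := rfl
  have e3 : act v x y z w 3 = cub (v 0) (v 1) (v 2) (v 3) y w := rfl
  rw [e0, e1, e2, e3]
  simp only [cub]
  ring

end maps

/-- Equal forms from two bases, over the field. -/
lemma form_eq (v : Q4 (𝓞 k)) (x y z w x' y' z' w' : 𝓞 k)
    (h : act v x y z w = act v x' y' z' w') (X Y : k) :
    cub (v 0 : k) (v 1) (v 2) (v 3) ((x : k) * X + (y : k) * Y) ((z : k) * X + (w : k) * Y) =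
      cub (v 0 : k) (v 1) (v 2) (v 3) ((x' : k) * X + (y' : k) * Y)
        ((z' : k) * X + (w' : k) * Y) := by
  have h1 : ∀ i, act (fun j => (v j : k)) (x : k) y z w i =
      act (fun j => (v j : k)) (x' : k) y' z' w' i := by
    intro i
    have h2 := map_act (algebraMap (𝓞 k) k) v x y z w i
    have h3 := map_act (algebraMap (𝓞 k) k) v x' y' z' w' i
    rw [← h] at h3
    exact h2.symm.trans h3
  have h2 := cub_act (fun j => (v j : k)) (x : k) y z w X Y
  have h3 := cub_act (fun j => (v j : k)) (x' : k) y' z' w' X Y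
  rw [← h1, ← h1, ← h1, ← h1] at h3
  exact h2.trans h3.symm

/-- ORB over the integers. -/
lemma orb_int (orb : OrbStmt) (v : Q4 (𝓞 k))
    (hirr : Irr (v 0) (v 1) (v 2) (v 3)) (hsq : ∀ x : k, x ^ 2 ≠ 3 * ((qM v : 𝓞 k) : k))
    (x y z w x' y' z' w' : 𝓞 k) (h1 : (x * w - y * z) ^ 2 = 1) (h2 : (x' * w' - y' * z') ^ 2 = 1)
    (h : act v x y z w = act v x' y' z' w') :
    x = x' ∧ z = z' ∧ x * w - y * z = x' * w' - y' * z' := by
  have hirr' : Irr (v 0 : k) (v 1) (v 2) (v 3) := by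
    intro X Y h0
    obtain ⟨a, d, hd, rfl⟩ := IsFractionRing.div_surjective (A := 𝓞 k) X
    obtain ⟨b, e, he, rfl⟩ := IsFractionRing.div_surjective (A := 𝓞 k) Y
    obtain ⟨a', ha'⟩ : ∃ a' : k, a' = algebraMap (𝓞 k) k a := ⟨_, rfl⟩
    obtain ⟨b', hb'⟩ : ∃ a' : k, a' = algebraMap (𝓞 k) k b := ⟨_, rfl⟩
    obtain ⟨d', hd'⟩ : ∃ a' : k, a' = algebraMap (𝓞 k) k d := ⟨_, rfl⟩
    obtain ⟨e', he'⟩ : ∃ a' : k, a' = algebraMap (𝓞 k) k e := ⟨_, rfl⟩
    have hd0 : d' ≠ 0 := by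
      rw [hd']
      exact (map_ne_zero_iff _ (FaithfulSMul.algebraMap_injective (𝓞 k) k)).2
        (nonZeroDivisors.ne_zero hd)
    have he0 : e' ≠ 0 := by
      rw [he']
      exact (map_ne_zero_iff _ (FaithfulSMul.algebraMap_injective (𝓞 k) k)).2
        (nonZeroDivisors.ne_zero he)
    rw [← ha', ← hb', ← hd', ← he'] at h0 ⊢
    have h3 : cub (v 0) (v 1) (v 2) (v 3) (a * e) (b * d) = 0 := by
      apply FaithfulSMul.algebraMap_injective (𝓞 k) k
      rw [map_cub, map_mul, map_mul, map_zero, ← ha', ← hb', ← hd', ← he']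
      have h4 : cub (v 0 : k) (v 1) (v 2) (v 3) (a' * e') (b' * d') =
          (d' * e') ^ 3 * cub (v 0 : k) (v 1) (v 2) (v 3) (a' / d') (b' / e') := by
        simp only [cub]
        field_simp
      rw [h0, mul_zero] at h4
      exact h4
    obtain ⟨h5, h6⟩ := hirr _ _ h3
    have h5' : a' * e' = 0 := by rw [ha', he', ← map_mul, h5, map_zero]
    have h6' : b' * d' = 0 := by rw [hb', hd', ← map_mul, h6, map_zero]
    rw [(mul_eq_zero.1 h5').resolve_right he0, (mul_eq_zero.1 h6').resolve_right hd0]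
    simp
  have hsq' : ∀ x : k, x ^ 2 ≠ 3 * fM (v 0 : k) (v 1) (v 2) (v 3) := by
    intro x hx
    apply hsq x
    rw [hx]
    exact congrArg (fun t => 3 * t) (map_fM (algebraMap (𝓞 k) k) _ _ _ _).symm
  obtain ⟨h3, h4, h5⟩ := orb k (v 0 : k) (v 1) (v 2) (v 3) hirr' hsq' (x : k) y z w x' y' z' w' 0
    (by exact_mod_cast congrArg (fun t : 𝓞 k => (t : k)) h1)
    (by exact_mod_cast congrArg (fun t : 𝓞 k => (t : k)) h2)
    (by
      intro X Y
      rw [form_eq v x y z w x' y' z' w' h X Y, zero_mul, add_zero])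
  refine ⟨by exact_mod_cast h3, by exact_mod_cast h4, ?_⟩
  apply RingOfIntegers.coe_injective
  exact_mod_cast h5

lemma act_mir {A : Type} [CommRing A] (v : Q4 A) (x y z w : A) :
    act (mir v) x y z w = act v (-x) (-y) z w := by
  funext i
  fin_cases i <;> simp [act, mir, cub] <;> ring

lemma qM_mir {A : Type} [CommRing A] (v : Q4 A) : qM (mir v) = qM v := by
  simp [qM, mir, fM, fP, fQ, fR]
  ring

lemma irr_mir {A : Type} [CommRing A] (v : Q4 A) (h : Irr (v 0) (v 1) (v 2) (v 3)) :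
    Irr (mir v 0) (mir v 1) (mir v 2) (mir v 3) := by
  intro x y h0
  have h1 : cub (v 0) (v 1) (v 2) (v 3) (-x) y = 0 := by
    rw [← h0]
    simp [mir, cub]
    ring
  obtain ⟨h2, h3⟩ := h _ _ h1
  exact ⟨by simpa using h2, h3⟩

/-- INJ. -/
theorem inj (act_ : ActStmt) (orb : OrbStmt) : InjStmt := by
  intro k _ _ hk Φ T η v hirr hP hM hsq hfin
  have hA : ∀ p : Mks Φ T η v, ∃ y w : 𝓞 k, p.1.1 * w - y * p.1.2 = 1 ∧
      act v p.1.1 y p.1.2 w ∈ Wset Φ T η (qM v) := fun p =>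
    mark_form act_ Φ T η v hirr p.1 p.2
  have hB : ∀ p : Mks Φ T η (mir v), ∃ y w : 𝓞 k, p.1.1 * w - y * p.1.2 = 1 ∧
      act (mir v) p.1.1 y p.1.2 w ∈ Wset Φ T η (qM v) := by
    intro p
    obtain ⟨y, w, h1, h2⟩ := mark_form act_ Φ T η (mir v) (irr_mir v hirr) p.1 p.2
    rw [qM_mir] at h2
    exact ⟨y, w, h1, h2⟩
  choose yA wA hA1 hA2 using hA
  choose yB wB hB1 hB2 using hB
  have hA1' : ∀ p : Mks Φ T η v, (p.1.1 * wA p - yA p * p.1.2) ^ 2 = 1 := fun p => by
    rw [hA1]; exact one_pow _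
  have hBd : ∀ p : Mks Φ T η (mir v), (-p.1.1) * wB p - (-yB p) * p.1.2 = -1 := fun p => by
    have := hB1 p
    linear_combination -this
  have hB1' : ∀ p : Mks Φ T η (mir v), ((-p.1.1) * wB p - (-yB p) * p.1.2) ^ 2 = 1 := fun p => by
    rw [hBd]; norm_num
  let f : Mks Φ T η v ⊕ Mks Φ T η (mir v) → Wset Φ T η (qM v) :=
    Sum.elim (fun p => ⟨_, hA2 p⟩) (fun p => ⟨_, hB2 p⟩)
  have hf : Function.Injective f := by
    rintro (p | p) (q | q) h
    · have h1 := congrArg Subtype.val h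
      change act v p.1.1 (yA p) p.1.2 (wA p) = act v q.1.1 (yA q) q.1.2 (wA q) at h1
      obtain ⟨h2, h3, -⟩ := orb_int orb v hirr hsq _ _ _ _ _ _ _ _ (hA1' p) (hA1' q) h1
      have : p = q := Subtype.ext (Prod.ext h2 h3)
      rw [this]
    · exfalso
      have h1 := congrArg Subtype.val h
      change act v p.1.1 (yA p) p.1.2 (wA p) = act (mir v) q.1.1 (yB q) q.1.2 (wB q) at h1
      rw [act_mir] at h1
      obtain ⟨-, -, h2⟩ := orb_int orb v hirr hsq _ _ _ _ _ _ _ _ (hA1' p) (hB1' q) h1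
      rw [hA1, hBd] at h2
      have h3 : (2 : 𝓞 k) = 0 := by linear_combination h2
      exact two_ne_zero h3
    · exfalso
      have h1 := congrArg Subtype.val h
      change act (mir v) p.1.1 (yB p) p.1.2 (wB p) = act v q.1.1 (yA q) q.1.2 (wA q) at h1
      rw [act_mir] at h1
      obtain ⟨-, -, h2⟩ := orb_int orb v hirr hsq _ _ _ _ _ _ _ _ (hB1' p) (hA1' q) h1
      rw [hA1, hBd] at h2
      have h3 : (2 : 𝓞 k) = 0 := by linear_combination -h2
      exact two_ne_zero h3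
    · have h1 := congrArg Subtype.val h
      change act (mir v) p.1.1 (yB p) p.1.2 (wB p) = act (mir v) q.1.1 (yB q) q.1.2 (wB q) at h1
      rw [act_mir, act_mir] at h1
      obtain ⟨h2, h3, -⟩ := orb_int orb v hirr hsq _ _ _ _ _ _ _ _ (hB1' p) (hB1' q) h1
      have : p = q := Subtype.ext (Prod.ext (neg_injective h2) h3)
      rw [this]
  have : Finite (Wset Φ T η (qM v)) := hfin
  have : Finite (Mks Φ T η v ⊕ Mks Φ T η (mir v)) := Finite.of_injective f hf
  have : Finite (Mks Φ T η v) := Finite.sum_left (Mks Φ T η (mir v))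
  have : Finite (Mks Φ T η (mir v)) := Finite.sum_right (Mks Φ T η v)
  have h1 := Nat.card_le_card_of_injective f hf
  rw [Nat.card_sum] at h1
  exact h1

end Pool.Agent.LeoK.H59

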