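import Mathlib
import Pool.Agent.LeoK.RelStmts
import Pool.Agent.Helper59_LEO4.Gen
import Pool.Agent.Helper59_LeoK.Kcn

/-!
# LEOK: the relative form for arbitrary totally real base fields, and the sharp proportion
-/

set_option autoImplicit false

open NumberField Module IsDedekindDomain WithZero Polynomial Filter
open Pool.Agent.Helper85_Leo Pool.Agent.Leo3 Pool.Agent.LeoK Pool.Agent.LEO4.H59

namespace Pool.Agent.LeoK.H59

/-- The counting argument for any property that holds for all `m` without a form. -/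
theorem core (hk : KcntStmt) (k : Type) [Field k] [NumberField k] (hreal : IsTotallyReal k)
    (Pr : ∀ (K : Type) [Field K] [NumberField K] [Algebra k K], Prop)
    (hPr : ∀ (K : Type) [Field K] [NumberField K] [Algebra k K] (m : 𝓞 k) (r : K),
      finrank k K = 2 → r ^ 2 = algebraMap k K (3 * (m : k)) → Adm k m →
      (¬ ∃ a b c d : 𝓞 k, Irr a b c d ∧ (∀ φ : k →+* ℝ, 0 < φ (fP a b c : 𝓞 k)) ∧
        fM a b c d = m) → Pr K) :
    ∃ c : ℝ, 0 < c ∧ ∀ᶠ X : ℝ in atTop,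
      ∃ (I : Type) (_ : Fintype I) (K : I → Type) (_ : ∀ i, Field (K i))
        (_ : ∀ i, NumberField (K i)) (_ : ∀ i, Algebra k (K i)),
        c * X ≤ Fintype.card I ∧ (∀ i i', Nonempty (K i ≃+* K i') → i = i') ∧
        ∀ i, finrank k (K i) = 2 ∧ ((discr (K i)).natAbs : ℝ) ≤ X ∧ Pr (K i) ∧
          (2 ≤ finrank ℚ k → ¬ IsAbelianGalois ℚ (K i)) := by
  classical
  obtain ⟨c, B, hc, hev⟩ := hk k hreal
  set n := finrank ℚ k with hn
  have hn0 : 0 < n := finrank_pos
  set D : ℝ := 12 ^ n * ((discr k).natAbs : ℝ) ^ 2 with hD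
  have hD0 : 0 < D := by
    have : (discr k).natAbs ≠ 0 := Int.natAbs_ne_zero.mpr (discr_ne_zero k)
    have : (0 : ℝ) < ((discr k).natAbs : ℝ) := by positivity
    positivity
  -- negligible abelian ones
  have hsmall : ∀ᶠ Z : ℝ in atTop, ∀ S : Finset (𝓞 k), 2 ≤ n →
      (∀ m ∈ S, Squarefree (Ideal.span {m}) ∧ ¬ IsSquare (3 * (m : k)) ∧
        ((Algebra.norm ℤ m).natAbs : ℝ) ≤ Z ∧ (∀ φ : k →+* ℝ, 0 < φ m) ∧
        (∀ φ ψ : k →+* ℝ, φ m ≤ B * ψ m) ∧
        ∃ (K : Type) (_ : Field K) (_ : NumberField K) (_ : Algebra k K) (r : K),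
          finrank k K = 2 ∧ r ^ 2 = algebraMap k K (3 * (m : k)) ∧ IsAbelianGalois ℚ K) →
      (S.card : ℝ) ≤ (c / 2) * Z := by
    by_cases h2 : 2 ≤ n
    · filter_upwards [nab_small k hreal h2 B (c / 2) (by positivity)] with Z hZ S _ hS
      exact hZ S hS
    · exact Eventually.of_forall fun Z S h => absurd h h2
  have hev' := (tendsto_id.atTop_div_const hD0).eventually (hev.and hsmall)
  refine ⟨c / (2 * n * D), by positivity, ?_⟩
  filter_upwards [hev', eventually_ge_atTop (0 : ℝ)] with X hX hX0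
  obtain ⟨⟨S, hScard, hS, hSinj⟩, hab⟩ := hX
  simp only [id] at hScard hS hab
  -- the fields
  have hfield : ∀ m : {m // m ∈ S}, ∃ (K : Type) (_ : Field K) (_ : NumberField K)
      (_ : Algebra k K) (r : K), finrank k K = 2 ∧
        r ^ 2 = algebraMap k K (3 * ((m : 𝓞 k) : k)) := fun m =>
    exists_quad k _ (nsq' (hS m m.2).1)
  choose K hF hNF hA r h2 hr2 using hfield
  -- the subset of non abelian ones
  set S₁ : Finset {m // m ∈ S} := Finset.univ.filter fun m =>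
    ¬ (2 ≤ n ∧ IsAbelianGalois ℚ (K m)) with hS₁
  have hS₁card : c / 2 * (X / D) ≤ S₁.card := by
    set S₂ : Finset {m // m ∈ S} := Finset.univ.filter fun m =>
      (2 ≤ n ∧ IsAbelianGalois ℚ (K m)) with hS₂
    have hsum : S₂.card + S₁.card = S.card := by
      rw [hS₁, hS₂, Finset.card_filter_add_card_filter_not]
      simp
    have hS₂card : (S₂.card : ℝ) ≤ c / 2 * (X / D) := by
      by_cases h2n : 2 ≤ n
      · have := hab (S₂.map ⟨Subtype.val, Subtype.val_injective⟩) h2n (by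
          intro m hm
          rw [Finset.mem_map] at hm
          obtain ⟨⟨m', hm'⟩, hmem, rfl⟩ := hm
          simp only [hS₂, Finset.mem_filter, Finset.mem_univ, true_and] at hmem
          obtain ⟨hadm, hnm, hbal, -⟩ := hS m' hm'
          exact ⟨hadm.sqf, nsq' hadm, hnm, hadm.pos, hbal, K ⟨m', hm'⟩, hF _, hNF _, hA _,
            r _, h2 _, hr2 _, hmem.2⟩)
        rwa [Finset.card_map] at this
      · have : S₂ = ∅ := by
          rw [hS₂, Finset.filter_eq_empty_iff]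
          intro m _ h
          exact h2n h.1
        rw [this]
        simp only [Finset.card_empty, Nat.cast_zero]
        positivity
    have hsum' : (S₂.card : ℝ) + S₁.card = S.card := by exact_mod_cast hsum
    linarith
  -- representatives
  obtain ⟨T, hTS, hTinj, hTcard⟩ := select S₁ (fun m m' => Nonempty (K m ≃+* K m'))
    (fun m => ⟨RingEquiv.refl _⟩) (fun m m' ⟨e⟩ => ⟨e.symm⟩) n (by
      intro a ha
      have h := iso_fiber k ((S₁.filter fun m' => Nonempty (K a ≃+* K m')).map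
        ⟨Subtype.val, Subtype.val_injective⟩) (by
          intro m hm m' hm' hsq
          rw [Finset.mem_map] at hm hm'
          obtain ⟨m₀, -, rfl⟩ := hm
          obtain ⟨m₁, -, rfl⟩ := hm'
          exact hSinj _ m₀.2 _ m₁.2 hsq) (by
          intro m hm
          rw [Finset.mem_map] at hm
          obtain ⟨m₀, -, rfl⟩ := hm
          exact nsq' (hS _ m₀.2).1) (K a) (by
          intro m hm
          rw [Finset.mem_map] at hm
          obtain ⟨m₀, hm₀, rfl⟩ := hm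
          rw [Finset.mem_filter] at hm₀
          obtain ⟨-, ⟨e⟩⟩ := hm₀
          exact ⟨K m₀, hF _, hA _, r _, h2 _, hr2 _, ⟨e.symm⟩⟩)
      rwa [Finset.card_map] at h)
  refine ⟨{m // m ∈ T}, inferInstance, fun m => K m.1, fun m => hF m.1, fun m => hNF m.1,
    fun m => hA m.1, ?_, ?_, ?_⟩
  · rw [Fintype.card_coe]
    have h4 : (S₁.card : ℝ) ≤ n * T.card := by exact_mod_cast hTcard
    have hnpos : (0 : ℝ) < n := by exact_mod_cast hn0
    have h5 : c / (2 * n * D) * X = (c / 2 * (X / D)) / n := by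
      field_simp
    rw [h5, div_le_iff₀ hnpos]
    linarith
  · rintro ⟨m, hm⟩ ⟨m', hm'⟩ he
    exact Subtype.ext (hTinj m hm m' hm' he)
  · rintro ⟨m, hm⟩
    obtain ⟨hadm, hnm, hbal, hform⟩ := hS m.1 m.2
    refine ⟨h2 m, ?_, hPr (K m) m.1 (r m) (h2 m) (hr2 m) hadm hform, ?_⟩
    · have hd := discr_le k (K m) (h2 m) m.1 (r m) (hr2 m) (nsq' hadm)
      have hd' : ((discr (K m)).natAbs : ℝ) ≤
          12 ^ n * ((Algebra.norm ℤ m.1).natAbs : ℝ) * ((discr k).natAbs : ℝ) ^ 2 := by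
        exact_mod_cast hd
      calc ((discr (K m)).natAbs : ℝ)
          ≤ 12 ^ n * ((Algebra.norm ℤ m.1).natAbs : ℝ) * ((discr k).natAbs : ℝ) ^ 2 := hd'
        _ = D * ((Algebra.norm ℤ m.1).natAbs : ℝ) := by rw [hD]; ring
        _ ≤ D * (X / D) := by gcongr
        _ = X := by field_simp
    · intro h2n hab'
      have hmem := hTS hm
      simp only [hS₁, Finset.mem_filter, Finset.mem_univ, true_and] at hmem
      exact hmem ⟨h2n, hab'⟩

/-- The properties of the fields. -/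
theorem good_of (hs : StrStmt) (hi : InhStmt) (hl : Leo3Stmt) (hu : Gup3Stmt)
    (k : Type) [Field k] [NumberField k] (hreal : IsTotallyReal k) (hnomu : NoMu k)
    (h3 : ¬ 3 ∣ Fintype.card (ClassGroup (𝓞 k))) (K : Type) [Field K] [NumberField K] [Algebra k K]
    (m : 𝓞 k) (r : K) (h2 : finrank k K = 2) (hr : r ^ 2 = algebraMap k K (3 * (m : k)))
    (hadm : Adm k m)
    (hform : ¬ ∃ a b c d : 𝓞 k, Irr a b c d ∧ (∀ φ : k →+* ℝ, 0 < φ (fP a b c : 𝓞 k)) ∧
        fM a b c d = m) : GoodExt k K := by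
  obtain ⟨hK, hW⟩ := hs k K m r hreal hnomu h3 h2 hr hadm
  have hWM : WMinus k K := by
    by_contra hno
    exact hform (hW hno)
  obtain ⟨h4, h5, h6, h7⟩ := hi k K m r hreal h2 hr hadm hK hWM
  refine ⟨h4, hK, hWM, h5, ?_, ?_⟩
  · intro M L _ _ _ _ _ _ _ _ _ _ _ j h8 h9 h10 h11
    exact h7 M L j h8 h9 h10 h11
  · intro hrat
    obtain ⟨h8, h9⟩ := h6 hrat
    refine ⟨h8, h9, hl K h8.nomu h8.w3, ?_⟩
    intro E _ _ _ _ e hE hunr
    obtain ⟨h10, h11⟩ := hu K E e hE hunr h8.nomu h8.w3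
    exact hl E h10 h11

/-- **REL**. -/
theorem rel (hk : KcntStmt) (hs : StrStmt) (hi : InhStmt) (hl : Leo3Stmt) (hu : Gup3Stmt) :
    RelStmt := by
  intro k _ _ hreal hnomu h3
  exact core hk k hreal (fun K _ _ _ => GoodExt k K) fun K _ _ _ m r h2 hr hadm hform =>
    good_of hs hi hl hu k hreal hnomu h3 K m r h2 hr hadm hform

/-- **HALF**. -/
theorem half (hcnt : CntStmt) (hadm : AdmStmt) (hnor : NorStmt) (hs : StrStmt) (hi : InhStmt)
    (hl : Leo3Stmt) (hu : Gup3Stmt) : HalfStmt := by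
  intro k _ _ hk hnomu h3 Φ
  obtain ⟨hfin, hlow, hbad⟩ := hcnt k hk Φ
  obtain ⟨hcard, -, -⟩ := hnor k hk
  refine ⟨hfin, hlow, fun ε hε => ?_⟩
  filter_upwards [hbad ε hε] with Z h2
  set bad : Set (𝓞 k) := {m | m ∈ Mset Φ Z ∧ ((∃ x : k, x ^ 2 = 3 * (m : k)) ∨
        ∃ a b c d : 𝓞 k, Irr a b c d ∧ (∀ φ : k →+* ℝ, 0 < φ (fP a b c : 𝓞 k)) ∧
          fM a b c d = m)} with hbaddef
  have hsub : bad ⊆ Mset Φ Z := fun m hm => hm.1
  have hf := hfin Z
  have h4 : ((Mset Φ Z \ bad).ncard : ℝ) = (Mset Φ Z).ncard - bad.ncard := by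
    have := Set.ncard_sdiff_add_ncard_of_subset hsub hf
    have h4 : (((Mset Φ Z \ bad).ncard + bad.ncard : ℕ) : ℝ) = (Mset Φ Z).ncard := by
      rw [this]
    push_cast at h4
    linarith
  have h5 : (1 / 2 - ε) * ((Mset Φ Z).ncard : ℝ) ≤ ((Mset Φ Z \ bad).ncard : ℝ) := by
    rw [h4]
    linarith
  refine h5.trans ?_
  norm_cast
  apply Set.ncard_le_ncard _ (hf.subset fun m hm => hm.1)
  rintro m ⟨hm, hmb⟩
  have hne : m ≠ 0 := by
    rintro rfl
    have := Φ.pos _ hm.1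
    obtain ⟨s⟩ : Nonempty (k →+* ℝ) := by
      rw [← Fintype.card_pos_iff]
      show 0 < Fintype.card (Sg k)
      rw [hcard]
      exact finrank_pos
    have := this s
    simp [lam] at this
  have hsq : ∀ x : k, x ^ 2 ≠ 3 * (m : k) := fun x hx => hmb ⟨hm, Or.inl ⟨x, hx⟩⟩
  refine ⟨hm, hsq, fun K _ _ _ r h6 h7 => ?_⟩
  have hA : Adm k m := ⟨fun φ => Φ.pos _ hm.1 φ, sqf_of_loc m hne fun p => (hm.2.2.2 p).sqf,
    hm.2.2.1, hadm k m fun v hv => (hm.2.2.2 v).three hv, hsq⟩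
  exact good_of hs hi hl hu k hk hnomu h3 K m r h6 h7 hA fun h => hmb ⟨hm, Or.inr h⟩

end Pool.Agent.LeoK.H59

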